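import Mathlib
import Pool.Agent.Results.MP_369736_co.FourPartsThreeFactors

/-!
Isomorphic factorisations of complete multipartite graphs into three factors: factorisation data,
joins, and the translation to multisets of part sizes.
-/

namespace Pool.Agent.Y386.IF

open Finset
open Pool.Agent.Results.MP_369736_co.FourPartsThreeFactors
  (K Divisible IsIsoFactorisation ConditionSufficient)

/-- Factorisation data for the complete multipartite graph whose parts are the fibres of `p`. -/
def HF {V I : Type} (p : V → I) : Prop :=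
  ∃ (c : V → V → Fin 3) (σ : Fin 3 → V ≃ V), (∀ u v, c u v = c v u) ∧
    ∀ k u v, (p u ≠ p v ∧ c u v = 0) ↔ (p (σ k u) ≠ p (σ k v) ∧ c (σ k u) (σ k v) = k)

/-- Factorisation data with a compatible division of the vertex set into three classes. -/
def HG {V I : Type} (p : V → I) : Prop :=
  ∃ (c : V → V → Fin 3) (σ : Fin 3 → V ≃ V) (X : V → Fin 3), (∀ u v, c u v = c v u) ∧
    (∀ k u v, (p u ≠ p v ∧ c u v = 0) ↔ (p (σ k u) ≠ p (σ k v) ∧ c (σ k u) (σ k v) = k)) ∧
    ∀ k v, X v = 0 ↔ X (σ k v) = k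

theorem HF.congr {V W I J : Type} {p : V → I} {q : W → J} (e : V ≃ W)
    (h : ∀ u v, p u = p v ↔ q (e u) = q (e v)) (hp : HF p) : HF q := by
  obtain ⟨c, σ, hc, hs⟩ := hp
  have h' : ∀ u v, q u = q v ↔ p (e.symm u) = p (e.symm v) := by
    intro u v
    rw [h, e.apply_symm_apply, e.apply_symm_apply]
  refine ⟨fun u v => c (e.symm u) (e.symm v), fun k => (e.symm.trans (σ k)).trans e,
    fun u v => hc _ _, ?_⟩
  intro k u v
  have := hs k (e.symm u) (e.symm v)
  simp only [ne_eq, h', Equiv.trans_apply, Equiv.symm_apply_apply] at this ⊢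
  exact this

theorem HG.congr {V W I J : Type} {p : V → I} {q : W → J} (e : V ≃ W)
    (h : ∀ u v, p u = p v ↔ q (e u) = q (e v)) (hp : HG p) : HG q := by
  obtain ⟨c, σ, X, hc, hs, hX⟩ := hp
  have h' : ∀ u v, q u = q v ↔ p (e.symm u) = p (e.symm v) := by
    intro u v
    rw [h, e.apply_symm_apply, e.apply_symm_apply]
  refine ⟨fun u v => c (e.symm u) (e.symm v), fun k => (e.symm.trans (σ k)).trans e,
    fun u => X (e.symm u), fun u v => hc _ _, ?_, ?_⟩
  · intro k u v
    have := hs k (e.symm u) (e.symm v)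
    simp only [ne_eq, h', Equiv.trans_apply, Equiv.symm_apply_apply] at this ⊢
    exact this
  · intro k v
    have := hX k (e.symm v)
    simp only [Equiv.trans_apply, Equiv.symm_apply_apply] at this ⊢
    exact this

/-- The join of a graph with compatible classes and any graph. -/
theorem HF.join {V₁ V₂ I₁ I₂ : Type} {p₁ : V₁ → I₁} {p₂ : V₂ → I₂} (h₁ : HG p₁) (h₂ : HF p₂) :
    HF (Sum.map p₁ p₂) := by
  obtain ⟨c₁, σ₁, X, hc₁, hs₁, hX⟩ := h₁
  obtain ⟨c₂, σ₂, hc₂, hs₂⟩ := h₂
  refine ⟨fun u v => match u, v with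
    | .inl u, .inl v => c₁ u v
    | .inr u, .inr v => c₂ u v
    | .inl u, .inr _ => X u
    | .inr _, .inl v => X v, fun k => Equiv.sumCongr (σ₁ k) (σ₂ k), ?_, ?_⟩
  · rintro (u | u) (v | v)
    · exact hc₁ u v
    · rfl
    · rfl
    · exact hc₂ u v
  · rintro k (u | u) (v | v)
    · simpa using hs₁ k u v
    · simpa using hX k u
    · simpa using hX k v
    · simpa using hs₂ k u v

theorem HF.divisible {r : ℕ} {n : Fin r → ℕ}
    (h : HF (Sigma.fst : (Σ i : Fin r, Fin (n i)) → Fin r)) : Divisible (K n) 3 := by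
  obtain ⟨c, σ, hc, hs⟩ := h
  let F : Fin 3 → SimpleGraph (Σ i : Fin r, Fin (n i)) := fun k =>
    { Adj := fun u v => u.1 ≠ v.1 ∧ c u v = k
      symm := ⟨fun u v h => ⟨h.1.symm, by rw [hc]; exact h.2⟩⟩
      loopless := ⟨fun u h => h.1 rfl⟩ }
  have iso : ∀ k, Nonempty (F 0 ≃g F k) := fun k => ⟨⟨σ k, fun {u v} => (hs k u v).symm⟩⟩
  refine ⟨F, ?_, ?_, ?_⟩
  · intro e
    induction e using Sym2.ind with
    | _ u v =>
      simp only [SimpleGraph.mem_edgeSet]
      constructor
      · intro h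
        exact ⟨c u v, by simpa using h, rfl⟩
      · rintro ⟨k, h1, -⟩
        simpa using h1
  · intro k l hkl
    rw [Set.disjoint_left]
    intro e
    induction e using Sym2.ind with
    | _ u v =>
      simp only [SimpleGraph.mem_edgeSet]
      rintro ⟨-, h1⟩ ⟨-, h2⟩
      exact hkl (h1.symm.trans h2)
  · intro k l
    obtain ⟨e1⟩ := iso k
    obtain ⟨e2⟩ := iso l
    exact ⟨e1.symm.trans e2⟩

theorem HF.of_divisible {r : ℕ} {n : Fin r → ℕ} (h : Divisible (K n) 3) :
    HF (Sigma.fst : (Σ i : Fin r, Fin (n i)) → Fin r) := by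
  classical
  obtain ⟨F, h1, h2, h3⟩ := h
  have adj : ∀ u v : (Σ i : Fin r, Fin (n i)), u.1 ≠ v.1 ↔ ∃ k, (F k).Adj u v := by
    intro u v
    have := h1 s(u, v)
    simpa using this
  have uniq : ∀ k l u v, (F k).Adj u v → (F l).Adj u v → k = l := by
    intro k l u v hk hl
    by_contra hkl
    exact Set.disjoint_left.1 (h2 k l hkl) (show s(u, v) ∈ _ from hk) (show s(u, v) ∈ _ from hl)
  let c : (Σ i : Fin r, Fin (n i)) → (Σ i : Fin r, Fin (n i)) → Fin 3 := fun u v =>
    if (F 1).Adj u v then 1 else if (F 2).Adj u v then 2 else 0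
  have key : ∀ k u v, (u.1 ≠ v.1 ∧ c u v = k) ↔ (F k).Adj u v := by
    intro k u v
    constructor
    · rintro ⟨hne, hk⟩
      obtain ⟨l, hl⟩ := (adj u v).1 hne
      have hcl : c u v = l := by
        fin_cases l
        · have a1 : ¬ (F 1).Adj u v := fun h => by
            have := uniq _ _ u v h hl; exact absurd this (by decide)
          have a2 : ¬ (F 2).Adj u v := fun h => by
            have := uniq _ _ u v h hl; exact absurd this (by decide)
          simp only [c, if_neg a1, if_neg a2]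
          rfl
        · simp only [c]
          rw [if_pos (by exact hl)]
          rfl
        · have a1 : ¬ (F 1).Adj u v := fun h => by
            have := uniq _ _ u v h hl; exact absurd this (by decide)
          simp only [c, if_neg a1]
          rw [if_pos (by exact hl)]
          rfl
      rw [← hk, hcl]
      exact hl
    · intro hk
      refine ⟨(adj u v).2 ⟨k, hk⟩, ?_⟩
      fin_cases k
      · have a1 : ¬ (F 1).Adj u v := fun h => by
          have := uniq _ _ u v h hk; exact absurd this (by decide)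
        have a2 : ¬ (F 2).Adj u v := fun h => by
          have := uniq _ _ u v h hk; exact absurd this (by decide)
        simp only [c, if_neg a1, if_neg a2]
        rfl
      · simp only [c]
        rw [if_pos (by exact hk)]
        rfl
      · have a1 : ¬ (F 1).Adj u v := fun h => by
          have := uniq _ _ u v h hk; exact absurd this (by decide)
        simp only [c, if_neg a1]
        rw [if_pos (by exact hk)]
        rfl
  refine ⟨c, fun k => (Classical.choice (h3 0 k)).toEquiv, ?_, ?_⟩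
  · intro u v
    simp only [c, SimpleGraph.adj_comm]
  · intro k u v
    rw [key, key]
    exact ((Classical.choice (h3 0 k)).map_adj_iff).symm

/-- Passing to standard parts. -/
theorem exists_equiv_fiber {V ι : Type} [Finite V] (p : V → ι) (n : ι → ℕ)
    (h : ∀ i, Nat.card {v // p v = i} = n i) :
    ∃ e : V ≃ (Σ i, Fin (n i)), ∀ v, (e v).1 = p v := by
  refine ⟨(Equiv.sigmaFiberEquiv p).symm.trans
    (Equiv.sigmaCongrRight fun i => (Finite.equivFin _).trans (finCongr (h i))), fun v => rfl⟩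

theorem HF.fiber {V ι : Type} [Finite V] (p : V → ι) (n : ι → ℕ)
    (h : ∀ i, Nat.card {v // p v = i} = n i) (hp : HF p) :
    HF (Sigma.fst : (Σ i, Fin (n i)) → ι) := by
  obtain ⟨e, he⟩ := exists_equiv_fiber p n h
  exact hp.congr e fun u v => by rw [he, he]

theorem HG.fiber {V ι : Type} [Finite V] (p : V → ι) (n : ι → ℕ)
    (h : ∀ i, Nat.card {v // p v = i} = n i) (hp : HG p) :
    HG (Sigma.fst : (Σ i, Fin (n i)) → ι) := by
  obtain ⟨e, he⟩ := exists_equiv_fiber p n h
  exact hp.congr e fun u v => by rw [he, he]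

/-- The complete multipartite graph with the given part sizes has a factorisation. -/
def DM (M : Multiset ℕ) : Prop :=
  ∃ (ι : Type) (_ : Fintype ι) (n : ι → ℕ), univ.val.map n = M ∧
    HF (Sigma.fst : (Σ i, Fin (n i)) → ι)

def GM (M : Multiset ℕ) : Prop :=
  ∃ (ι : Type) (_ : Fintype ι) (n : ι → ℕ), univ.val.map n = M ∧
    HG (Sigma.fst : (Σ i, Fin (n i)) → ι)

theorem exists_equiv {ι κ : Type} [Fintype ι] [Fintype κ] (f : ι → ℕ) (g : κ → ℕ)
    (h : (univ : Finset ι).val.map f = (univ : Finset κ).val.map g) :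
    ∃ e : ι ≃ κ, ∀ i, g (e i) = f i := by
  classical
  have hc : ∀ c, Fintype.card {i // f i = c} = Fintype.card {k // g k = c} := by
    intro c
    have := congrArg (Multiset.count c) h
    rw [Multiset.count_map, Multiset.count_map] at this
    rw [Fintype.card_subtype, Fintype.card_subtype]
    have e1 : ∀ {α : Type} [Fintype α] (f : α → ℕ),
        (univ.filter fun i => f i = c).card = Multiset.card
          (Multiset.filter (fun a => c = f a) (univ : Finset α).val) := by
      intro α _ f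
      rw [Finset.card_def, Finset.filter_val]
      congr 1
      apply Multiset.filter_congr
      intro x _
      exact eq_comm
    rw [e1, e1, this]
  refine ⟨(Equiv.sigmaFiberEquiv f).symm.trans ((Equiv.sigmaCongrRight fun c =>
    Fintype.equivOfCardEq (hc c)).trans (Equiv.sigmaFiberEquiv g)), fun i => ?_⟩
  exact (Fintype.equivOfCardEq (hc (f i)) ⟨i, rfl⟩).2

theorem DM.divisible {r : ℕ} {n : Fin r → ℕ} (h : DM (univ.val.map n)) :
    Divisible (K n) 3 := by
  obtain ⟨ι, _, m, hm, hf⟩ := h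
  obtain ⟨e, he⟩ := exists_equiv m n hm
  apply HF.divisible
  refine hf.congr ((Equiv.sigmaCongrRight fun i => finCongr (he i).symm).trans
    (Equiv.sigmaCongrLeft (β := fun i => Fin (n i)) e)) ?_
  rintro ⟨i, x⟩ ⟨j, y⟩
  exact e.injective.eq_iff.symm

theorem DM.of_divisible {r : ℕ} {n : Fin r → ℕ} (h : Divisible (K n) 3) :
    DM (univ.val.map n) :=
  ⟨Fin r, inferInstance, n, rfl, HF.of_divisible h⟩

theorem GM.add {M₁ M₂ : Multiset ℕ} (h₁ : GM M₁) (h₂ : DM M₂) : DM (M₁ + M₂) := by
  obtain ⟨ι₁, _, n₁, rfl, h₁⟩ := h₁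
  obtain ⟨ι₂, _, n₂, rfl, h₂⟩ := h₂
  refine ⟨ι₁ ⊕ ι₂, inferInstance, Sum.elim n₁ n₂, ?_, ?_⟩
  · rw [← Finset.univ_disjSum_univ, Finset.val_disjSum, Multiset.disjSum, Multiset.map_add,
      Multiset.map_map, Multiset.map_map]
    rfl
  · refine (HF.join h₁ h₂).congr (Equiv.sumSigmaDistrib fun i => Fin (Sum.elim n₁ n₂ i)).symm ?_
    rintro (⟨i, x⟩ | ⟨i, x⟩) (⟨j, y⟩ | ⟨j, y⟩) <;> exact Iff.rfl

theorem DM.zero : DM 0 := by
  refine ⟨Fin 0, inferInstance, Fin.elim0, by simp, fun _ _ => 0, fun _ => Equiv.refl _,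
    fun _ _ => rfl, ?_⟩
  rintro k ⟨i, _⟩
  exact i.elim0

theorem GM.dm {M : Multiset ℕ} (h : GM M) : DM M := by
  simpa using h.add DM.zero

theorem DM.single (a : ℕ) : DM {a} := by
  refine ⟨Fin 1, inferInstance, fun _ => a, by simp, fun _ _ => 0, fun _ => Equiv.refl _,
    fun _ _ => rfl, ?_⟩
  rintro k ⟨i, x⟩ ⟨j, y⟩
  have : i = j := Subsingleton.elim _ _
  simp [this]

theorem fin3_shift : ∀ a k : Fin 3, a = 0 ↔ a + k = k := by decide

theorem GM.zeroPart (m : ℕ) : GM {3 * m} := by
  refine ⟨Fin 1, inferInstance, fun _ => 3 * m, by simp, ?_⟩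
  refine HG.fiber (V := Fin 3 × Fin m) (fun _ => (0 : Fin 1)) _ (fun i => ?_) ?_
  · have : i = 0 := Subsingleton.elim _ _
    subst this
    simp
  · refine ⟨fun _ _ => 0, fun k => Equiv.prodCongr (Equiv.addRight k) (Equiv.refl _),
      fun v => v.1, fun _ _ => rfl, fun k u v => by simp, fun k v => ?_⟩
    exact fin3_shift v.1 k

theorem GM.equal (m : ℕ) : GM {m, m, m} := by
  refine ⟨Fin 3, inferInstance, fun _ => m, by rfl, ?_⟩
  refine HG.fiber (V := Fin 3 × Fin m) (fun v => v.1) _ (fun i => ?_) ?_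
  · rw [Nat.card_eq_fintype_card, Fintype.card_subtype]
    have : (univ.filter fun x : Fin 3 × Fin m => x.1 = i) = {i} ×ˢ univ := by
      ext ⟨a, b⟩
      simp [eq_comm]
    rw [this, card_product]
    simp
  · refine ⟨fun u v => - (u.1 + v.1), fun k => Equiv.prodCongr (Equiv.addRight k) (Equiv.refl _),
      fun v => v.1, fun u v => by simp only [add_comm], fun k u v => ?_, fun k v => ?_⟩
    · have key : ∀ k a b : Fin 3, (a ≠ b ∧ -(a + b) = 0) ↔
          (a + k ≠ b + k ∧ -(a + k + (b + k)) = k) := by decide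
      simpa using key k u.1 v.1
    · exact fin3_shift v.1 k

end Pool.Agent.Y386.IF
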