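import Pool.Agent.Y386.IF.Base

/-!
Finite data which describe factorisations of infinite families of complete multipartite graphs:
a core with `N` vertices in `s` parts, to some of which blocks of three vertices are added.
-/

namespace Pool.Agent.Y386.IF

open Finset

structure Core (N s : ℕ) where
  P : ℕ
  C : ℕ
  S : ℕ
  T : ℕ
  B : ℕ
  E : List Bool
  R : List ℕ

namespace Core

variable {N s : ℕ} [NeZero N] [NeZero s] (f : Core N s)

def part (x : Fin N) : Fin s := Fin.ofNat s (f.P / 16 ^ x.val % 16)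

def col (u v : Fin N) : Fin 3 := Fin.ofNat 3 (f.C / 4 ^ (N * u.val + v.val) % 4)

def sg (k : Fin 3) (x : Fin N) : Fin N := Fin.ofNat N (f.S / 16 ^ (N * k.val + x.val) % 16)

def X (x : Fin N) : Fin 3 := Fin.ofNat 3 (f.T / 4 ^ x.val % 4)

def Bc (i : Fin s) (x : Fin N) (a : Fin 3) : Fin 3 :=
  Fin.ofNat 3 (f.B / 4 ^ ((N * i.val + x.val) * 3 + a.val) % 4)

def ext (i : Fin s) : Bool := f.E.getD i.val false

def rr (i : Fin s) : ℕ := f.R.getD i.val 0

def Ok : Prop :=
  (∀ u v, f.col u v = f.col v u) ∧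
  (∀ k u v, f.sg k u = f.sg k v → u = v) ∧
  (∀ k u v, (f.part u ≠ f.part v ∧ f.col u v = 0) ↔
    (f.part (f.sg k u) ≠ f.part (f.sg k v) ∧ f.col (f.sg k u) (f.sg k v) = k)) ∧
  (∀ i, f.ext i = true → ∀ k x a, (f.part x ≠ i ∧ f.Bc i x a = 0) ↔
    (f.part (f.sg k x) ≠ i ∧ f.Bc i (f.sg k x) (a + k) = k)) ∧
  (∀ i : Fin s, (univ.filter fun x => f.part x = i).card = f.rr i)

def OkX : Prop := ∀ k v, f.X v = 0 ↔ f.X (f.sg k v) = k

instance : Decidable f.Ok := by unfold Ok; infer_instance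

instance : Decidable f.OkX := by unfold OkX; infer_instance

variable (e : Fin s → ℕ)

abbrev V (N : ℕ) (e : Fin s → ℕ) : Type := Fin N ⊕ (Σ i : Fin s, Fin (e i) × Fin 3)

def pp : V N e → Fin s := Sum.elim f.part (fun y => y.1)

def cc : V N e → V N e → Fin 3
  | .inl u, .inl v => f.col u v
  | .inl u, .inr y => f.Bc y.1 u y.2.2
  | .inr y, .inl u => f.Bc y.1 u y.2.2
  | .inr y, .inr z => if y.1 < z.1 then y.2.2 else if z.1 < y.1 then z.2.2 else 0

def XX : V N e → Fin 3
  | .inl u => f.X u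
  | .inr y => y.2.2

variable {f}

noncomputable def ss (hf : f.Ok) (k : Fin 3) : V N e ≃ V N e :=
  Equiv.sumCongr (Equiv.ofBijective (f.sg k) (Finite.injective_iff_bijective.1
    fun u v h => hf.2.1 k u v h))
    (Equiv.sigmaCongrRight fun _ => Equiv.prodCongr (Equiv.refl _) (Equiv.addRight k))

variable {e}

theorem cc_symm (hf : f.Ok) (u v : V N e) : f.cc e u v = f.cc e v u := by
  rcases u with u | y <;> rcases v with v | z
  · exact hf.1 u v
  · rfl
  · rfl
  · simp only [cc]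
    rcases lt_trichotomy y.1 z.1 with h | h | h
    · rw [if_pos h, if_neg (not_lt.2 h.le), if_pos h]
    · simp [h]
    · rw [if_neg (not_lt.2 h.le), if_pos h, if_pos h]

theorem main_iff (hf : f.Ok) (he : ∀ i, f.ext i = false → e i = 0) (k : Fin 3) (u v : V N e) :
    (f.pp e u ≠ f.pp e v ∧ f.cc e u v = 0) ↔
      (f.pp e (ss e hf k u) ≠ f.pp e (ss e hf k v) ∧
        f.cc e (ss e hf k u) (ss e hf k v) = k) := by
  have hext : ∀ y : (Σ i : Fin s, Fin (e i) × Fin 3), f.ext y.1 = true := by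
    rintro ⟨i, ⟨x, a⟩⟩
    by_contra h
    have := he i (by simpa using h)
    have hx : (x : ℕ) < e i := x.isLt
    omega
  rcases u with u | y <;> rcases v with v | z
  · exact hf.2.2.1 k u v
  · exact hf.2.2.2.1 z.1 (hext z) k u z.2.2
  · have := hf.2.2.2.1 y.1 (hext y) k v y.2.2
    constructor
    · rintro ⟨h1, h2⟩
      obtain ⟨h3, h4⟩ := this.1 ⟨fun h => h1 h.symm, h2⟩
      exact ⟨fun h => h3 h.symm, h4⟩
    · rintro ⟨h1, h2⟩
      obtain ⟨h3, h4⟩ := this.2 ⟨fun h => h1 h.symm, h2⟩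
      exact ⟨fun h => h3 h.symm, h4⟩
  · obtain ⟨i, x, a⟩ := y
    obtain ⟨j, y, b⟩ := z
    change (i ≠ j ∧ (if i < j then a else if j < i then b else 0) = 0) ↔
      (i ≠ j ∧ (if i < j then a + k else if j < i then b + k else 0) = k)
    rcases lt_trichotomy i j with h | h | h
    · rw [if_pos h, if_pos h, fin3_shift a k]
    · simp [h]
    · rw [if_neg (not_lt.2 h.le), if_neg (not_lt.2 h.le), if_pos h, if_pos h, fin3_shift b k]

theorem card_fiber (hf : f.Ok) (i : Fin s) :
    Nat.card {v : V N e // f.pp e v = i} = f.rr i + 3 * e i := by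
  classical
  rw [Nat.card_eq_fintype_card, Fintype.card_subtype, Finset.card_filter, Fintype.sum_sum_type,
    Fintype.sum_sigma]
  have h1 : (∑ x : Fin N, if f.pp e (Sum.inl x) = i then 1 else 0) = f.rr i := by
    rw [← hf.2.2.2.2 i, Finset.card_filter]
    rfl
  rw [h1]
  have h2 : ∀ j : Fin s, (∑ y : Fin (e j) × Fin 3, if f.pp e (Sum.inr ⟨j, y⟩) = i then 1 else 0)
      = if j = i then 3 * e i else 0 := by
    intro j
    change (∑ y : Fin (e j) × Fin 3, if j = i then 1 else 0) = _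
    by_cases h : j = i
    · subst h
      simp [mul_comm]
    · simp [h]
  rw [Finset.sum_congr rfl fun j _ => h2 j]
  simp

theorem hf (hf : f.Ok) (e : Fin s → ℕ) (he : ∀ i, f.ext i = false → e i = 0) :
    DM (univ.val.map fun i => f.rr i + 3 * e i) :=
  ⟨Fin s, inferInstance, _, rfl, HF.fiber (f.pp e) _ (fun i => card_fiber hf i)
    ⟨f.cc e, ss e hf, cc_symm hf, main_iff hf he⟩⟩

theorem hg (hf : f.Ok) (hX : f.OkX) (e : Fin s → ℕ) (he : ∀ i, f.ext i = false → e i = 0) :
    GM (univ.val.map fun i => f.rr i + 3 * e i) := by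
  refine ⟨Fin s, inferInstance, _, rfl, HG.fiber (f.pp e) _ (fun i => card_fiber hf i)
    ⟨f.cc e, ss e hf, f.XX e, cc_symm hf, main_iff hf he, ?_⟩⟩
  rintro k (u | y)
  · exact hX k u
  · exact fin3_shift y.2.2 k

end Core

end Pool.Agent.Y386.IF
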