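import Pool.Agent.Y386.IF.Core

/-!
The cores (found by computer) and their verification by the kernel.
-/

set_option maxRecDepth 100000

namespace Pool.Agent.Y386.IF

def c144 : Core 9 3 :=
  ⟨9162526992,
    11953244428783997299143628991540057762104100484,
    162690783791272921401389097431568,
    107013,
    199115198150164623219499058220851533971456,
    [false, false, true], [1, 4, 4]⟩

theorem c144_ok : c144.Ok := by decide +kernel

theorem c144_okX : c144.OkX := by decide +kernel

def c444 : Core 12 3 :=
  ⟨37529710559232,
    1161226072668035347943879383342234020178923695758907521058304953329378423324095959040,
    14165067048610902241488984477276910065562128,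
    4598052,
    847663519848091241207884505499827374674925585924148428800,
    [false, true, true], [4, 4, 4]⟩

theorem c444_ok : c444.Ok := by decide +kernel

theorem c444_okX : c444.OkX := by decide +kernel

def c177 : Core 15 3 :=
  ⟨153722866994581776,
    68109114774302927006094767561611253463876314867859923165463590073981680178995111524142619873368051589243838988977752616356167614464,
    1411870178290473966537275483062200390301444710906212880,
    404263461,
    35606058046599855332603658031529680456183083704870230837669373560128,
    [true, true, true], [1, 7, 7]⟩

theorem c177_ok : c177.Ok := by decide +kernel

theorem c177_okX : c177.OkX := by decide +kernel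

def c225 : Core 9 3 :=
  ⟨9162592512,
    1605665989562457627858831104513390860725930384,
    8182809214255827706082317578768,
    21018,
    820301449491534500199395847855610527744,
    [false, false, true], [2, 2, 5]⟩

theorem c225_ok : c225.Ok := by decide +kernel

theorem c225_okX : c225.OkX := by decide +kernel

def c255 : Core 12 3 :=
  ⟨37529978999040,
    323046960385330765193179954599425199058007611304451563325489558982721381020542969120,
    2915780759432926623947299154515474664141328,
    8718936,
    13242620049186802608432236884517608153433307250157420544,
    [false, false, true], [2, 5, 5]⟩

theorem c255_ok : c255.Ok := by decide +kernel

theorem c255_okX : c255.OkX := by decide +kernel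

def c258 : Core 15 3 :=
  ⟨153722867263017216,
    28650017637507208267412540899910038207760936574687428479679158563027811662339446282728941773823901165484987984567884334011230339072,
    218357922521538724784279922368638691699764848424661520,
    638142546,
    3423178291172486905225024352033312825102854342477976788677168635904,
    [true, true, true], [2, 5, 8]⟩

theorem c258_ok : c258.Ok := by decide +kernel

theorem c258_okX : c258.OkX := by decide +kernel

def c111111 : Core 6 6 :=
  ⟨5517840,
    85326959417723722260,
    1480437378525456249360,
    0,
    933835653169000580888025149312221124353780385810179035544682496,
    [false, false, false, false, false, true], [1, 1, 1, 1, 1, 1]⟩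

theorem c111111_ok : c111111.Ok := by decide +kernel

def c114222 : Core 12 6 :=
  ⟨93751404012048,
    15545680069400338215660174082554095048956998663099546758106715556169354682845150979392,
    12677447226261695551634541900702332226908688,
    0,
    888899842120863430436037665645642879854071451031329076614152949440905495273874767423947838865506225766779433826877589065564160,
    [false, false, true, true, true, true], [1, 1, 4, 2, 2, 2]⟩

theorem c114222_ok : c114222.Ok := by decide +kernel

end Pool.Agent.Y386.IF
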