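import Pool.Agent.Y386.IF.Main

/-!
The Divisibility Condition is sufficient for `(r, 3)` for every `r ≥ 2` except `r = 3`.
-/

namespace Pool.Agent.Y386.IF

open Finset
open Pool.Agent.Results.MP_369736_co.FourPartsThreeFactors
  (K Divisible IsIsoFactorisation ConditionSufficient)

theorem residues (M : Multiset ℕ) :
    M.sum % 3 = (Multiset.countP (fun x => x % 3 = 1) M +
      2 * Multiset.countP (fun x => x % 3 = 2) M) % 3 ∧
    (M.map fun x => x ^ 2).sum % 3 = (Multiset.countP (fun x => x % 3 = 1) M +
      Multiset.countP (fun x => x % 3 = 2) M) % 3 := by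
  induction M using Multiset.induction with
  | empty => simp
  | cons a M ih =>
    obtain ⟨h1, h2⟩ := ih
    rw [Multiset.sum_cons, Multiset.map_cons, Multiset.sum_cons, Multiset.countP_cons,
      Multiset.countP_cons]
    have ha : a ^ 2 % 3 = (a % 3) ^ 2 % 3 := Nat.pow_mod a 2 3
    rcases (by omega : a % 3 = 0 ∨ a % 3 = 1 ∨ a % 3 = 2) with h | h | h <;>
    · rw [h] at ha
      simp only [h]
      norm_num at ha ⊢
      omega

theorem card_edges (r : ℕ) (n : Fin r → ℕ) :
    2 * (K n).edgeSet.ncard + ∑ i, n i ^ 2 = (∑ i, n i) ^ 2 := by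
  classical
  have h1 : (K n).edgeSet.ncard = (K n).edgeFinset.card := by
    rw [Set.ncard_eq_toFinset_card']
    rfl
  have h2 := (K n).sum_degrees_eq_twice_card_edges
  have h3 : ∀ v : (Σ i : Fin r, Fin (n i)), (K n).degree v + n v.1 = ∑ j, n j := by
    intro v
    have : (K n).neighborFinset v = Finset.univ.filter fun w => v.1 ≠ w.1 := by
      ext w
      simp
    rw [← SimpleGraph.card_neighborFinset_eq_degree, this, Finset.card_filter,
      Fintype.sum_sigma]
    have h4 : ∀ j : Fin r, (∑ y : Fin (n j), if v.1 ≠ (⟨j, y⟩ : Σ i : Fin r, Fin (n i)).1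
        then 1 else 0) = if v.1 = j then 0 else n j := by
      intro j
      by_cases hj : v.1 = j
      · simp [hj]
      · simp [hj]
    rw [Finset.sum_congr rfl fun j _ => h4 j]
    rw [← Finset.add_sum_erase _ _ (Finset.mem_univ v.1), if_pos rfl, zero_add,
      ← Finset.add_sum_erase (Finset.univ) n (Finset.mem_univ v.1), add_comm]
    congr 1
    refine Finset.sum_congr rfl fun j hj => ?_
    rw [if_neg (Finset.ne_of_mem_erase hj).symm]
  have h5 : ∑ v : (Σ i : Fin r, Fin (n i)), ((K n).degree v + n v.1) = (∑ i, n i) ^ 2 := by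
    rw [Finset.sum_congr rfl fun v _ => h3 v, Finset.sum_const, Finset.card_univ,
      Fintype.card_sigma]
    simp [sq]
  rw [Finset.sum_add_distrib, h2, ← h1, Fintype.sum_sigma] at h5
  simpa [sq] using h5

theorem dm_all (M : Multiset ℕ) (hpos : ∀ x ∈ M, 1 ≤ x) (h4 : 4 ≤ Multiset.card M)
    (hc : M.sum ^ 2 % 3 = (M.map fun x => x ^ 2).sum % 3) : DM M := by
  have e : M = M.filter (fun x => x % 3 = 0) + (M.filter (fun x => x % 3 = 2) +
      (Multiset.replicate (M.count 1) 1 + M.filter (fun x => x % 3 = 1 ∧ x ≠ 1))) := by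
    apply Multiset.ext.2
    intro x
    simp only [Multiset.count_add, Multiset.count_filter, Multiset.count_replicate]
    by_cases h1 : x = 1
    · subst h1
      simp
    · rcases (by omega : x % 3 = 0 ∨ x % 3 = 1 ∨ x % 3 = 2) with h | h | h <;>
        simp [h, h1, Ne.symm h1]
  have hP : M.count 1 + Multiset.card (M.filter (fun x => x % 3 = 1 ∧ x ≠ 1)) =
      Multiset.countP (fun x => x % 3 = 1) M := by
    rw [Multiset.countP_eq_card_filter]
    have : M.filter (fun x => x % 3 = 1) = Multiset.replicate (M.count 1) 1 +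
        M.filter (fun x => x % 3 = 1 ∧ x ≠ 1) := by
      apply Multiset.ext.2
      intro x
      simp only [Multiset.count_add, Multiset.count_filter, Multiset.count_replicate]
      by_cases h1 : x = 1
      · subst h1
        simp
      · by_cases h : x % 3 = 1 <;> simp [h, h1, Ne.symm h1]
    rw [this, Multiset.card_add, Multiset.card_replicate]
  have hS : Multiset.card (M.filter (fun x => x % 3 = 2)) =
      Multiset.countP (fun x => x % 3 = 2) M := (Multiset.countP_eq_card_filter _ _).symm
  obtain ⟨r1, r2⟩ := residues M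
  have hcard := congrArg Multiset.card e
  simp only [Multiset.card_add, Multiset.card_replicate] at hcard
  rw [e]
  refine dm_parts _ _ _ _ ?_ ?_ ?_ ?_ ?_
  · intro x hx
    rw [Multiset.mem_filter] at hx
    exact ⟨hx.2, hpos x hx.1⟩
  · intro x hx
    rw [Multiset.mem_filter] at hx
    exact hx.2
  · intro x hx
    rw [Multiset.mem_filter] at hx
    have := hpos x hx.1
    exact ⟨hx.2.1, by omega⟩
  · omega
  · rw [hP, hS]
    generalize Multiset.countP (fun x => x % 3 = 1) M = p at *
    generalize Multiset.countP (fun x => x % 3 = 2) M = s at *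
    rw [Nat.pow_mod, r1, r2] at hc
    have hp : p % 3 = 0 ∨ p % 3 = 1 ∨ p % 3 = 2 := by omega
    have hs : s % 3 = 0 ∨ s % 3 = 1 ∨ s % 3 = 2 := by omega
    have e1 : (p + 2 * s) % 3 = (p % 3 + 2 * (s % 3)) % 3 := by omega
    have e2 : (p + s) % 3 = (p % 3 + s % 3) % 3 := by omega
    rw [e1, e2] at hc
    rcases hp with hp | hp | hp <;> rcases hs with hs | hs | hs <;> rw [hp, hs] at hc <;>
      simp [hp, hs] at hc ⊢

theorem sufficient (r : ℕ) (hr : 4 ≤ r) : ConditionSufficient r 3 := by
  intro n hn hd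
  apply DM.divisible
  refine dm_all _ ?_ (by simpa using hr) ?_
  · intro x hx
    rw [Multiset.mem_map] at hx
    obtain ⟨i, -, rfl⟩ := hx
    exact hn i
  · have h := card_edges r n
    have e1 : (univ.val.map n).sum = ∑ i, n i := rfl
    have e2 : ((univ.val.map n).map fun x => x ^ 2).sum = ∑ i, n i ^ 2 := by
      rw [Multiset.map_map]
      rfl
    rw [e1, e2, ← h]
    omega

theorem sufficient_two : ConditionSufficient 2 3 := by
  intro n hn hd
  apply DM.divisible
  have h := card_edges 2 n
  simp only [Fin.sum_univ_two] at h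
  have h' : (K n).edgeSet.ncard = n 0 * n 1 := by nlinarith
  rw [h'] at hd
  have e : (univ : Finset (Fin 2)).val.map n = {n 0, n 1} := rfl
  rw [e]
  rcases (Nat.Prime.dvd_mul (by norm_num)).1 hd with ⟨m, hm⟩ | ⟨m, hm⟩
  · rw [hm]
    exact (GM.zeroPart m).add (DM.single (n 1))
  · have : ({n 0, n 1} : Multiset ℕ) = {n 1} + {n 0} := Multiset.pair_comm _ _
    rw [this, hm]
    exact (GM.zeroPart m).add (DM.single (n 0))

end Pool.Agent.Y386.IF
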