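import Pool.Agent.Y386.IF.Data

/-!
Every complete multipartite graph with at least four parts and a number of edges divisible by 3 has
an isomorphic factorisation into three factors.
-/

namespace Pool.Agent.Y386.IF

open Finset
open Pool.Agent.Results.MP_369736_co.FourPartsThreeFactors
  (K Divisible IsIsoFactorisation ConditionSufficient card_edges)

theorem gm3 {a b c : ℕ} (f : Fin 3 → ℕ) (h : GM ((univ : Finset (Fin 3)).val.map f))
    (h0 : f 0 = a) (h1 : f 1 = b) (h2 : f 2 = c) : GM {a, b, c} := by
  subst h0 h1 h2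
  exact h

theorem g144 (n : ℕ) (h : n % 3 = 1) (h4 : 4 ≤ n) : GM {1, 4, n} := by
  refine gm3 _ (Core.hg c144_ok c144_okX ![0, 0, (n - 4) / 3] ?_) rfl rfl ?_
  · intro i hi
    fin_cases i
    exacts [rfl, rfl, absurd hi (by decide)]
  · change 4 + 3 * ((n - 4) / 3) = n
    omega

theorem g444 (n : ℕ) (h : n % 3 = 1) (h4 : 4 ≤ n) : GM {4, 4, n} := by
  refine gm3 _ (Core.hg c444_ok c444_okX ![0, 0, (n - 4) / 3] ?_) rfl rfl ?_
  · intro i hi
    fin_cases i
    exacts [rfl, rfl, absurd hi (by decide)]
  · change 4 + 3 * ((n - 4) / 3) = n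
    omega

theorem g177 (l m n : ℕ) (hl : l % 3 = 1) (hm : m % 3 = 1) (hn : n % 3 = 1) (hm7 : 7 ≤ m)
    (hn7 : 7 ≤ n) : GM {l, m, n} := by
  refine gm3 _ (Core.hg c177_ok c177_okX ![(l - 1) / 3, (m - 7) / 3, (n - 7) / 3] ?_) ?_ ?_ ?_
  · intro i hi
    fin_cases i
    exacts [absurd hi (by decide), absurd hi (by decide), absurd hi (by decide)]
  · change 1 + 3 * ((l - 1) / 3) = l
    omega
  · change 7 + 3 * ((m - 7) / 3) = m
    omega
  · change 7 + 3 * ((n - 7) / 3) = n
    omega

theorem g225 (n : ℕ) (h : n % 3 = 2) (h4 : 5 ≤ n) : GM {2, 2, n} := by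
  refine gm3 _ (Core.hg c225_ok c225_okX ![0, 0, (n - 5) / 3] ?_) rfl rfl ?_
  · intro i hi
    fin_cases i
    exacts [rfl, rfl, absurd hi (by decide)]
  · change 5 + 3 * ((n - 5) / 3) = n
    omega

theorem g255 : GM {2, 5, 5} := by
  refine gm3 _ (Core.hg c255_ok c255_okX ![0, 0, 0] ?_) rfl rfl rfl
  · intro i hi
    fin_cases i
    exacts [rfl, rfl, rfl]

theorem g258 (l m n : ℕ) (hl : l % 3 = 2) (hm : m % 3 = 2) (hn : n % 3 = 2) (hm5 : 5 ≤ m)
    (hn8 : 8 ≤ n) : GM {l, m, n} := by
  refine gm3 _ (Core.hg c258_ok c258_okX ![(l - 2) / 3, (m - 5) / 3, (n - 8) / 3] ?_) ?_ ?_ ?_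
  · intro i hi
    fin_cases i
    exacts [absurd hi (by decide), absurd hi (by decide), absurd hi (by decide)]
  · change 2 + 3 * ((l - 2) / 3) = l
    omega
  · change 5 + 3 * ((m - 5) / 3) = m
    omega
  · change 8 + 3 * ((n - 8) / 3) = n
    omega

theorem swap12 (a b c : ℕ) : ({a, b, c} : Multiset ℕ) = {b, a, c} := Multiset.cons_swap _ _ _

theorem swap23 (a b c : ℕ) : ({a, b, c} : Multiset ℕ) = {a, c, b} := by
  change a ::ₘ (b ::ₘ c ::ₘ 0) = a ::ₘ (c ::ₘ b ::ₘ 0)
  rw [Multiset.cons_swap b c]

theorem good1_le (x m n : ℕ) (hx : x % 3 = 1) (hm : m % 3 = 1) (hn : n % 3 = 1) (hm4 : 4 ≤ m)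
    (hmn : m ≤ n) : GM {x, m, n} := by
  by_cases h7 : 7 ≤ m
  · exact g177 x m n hx hm hn h7 (h7.trans hmn)
  · obtain rfl : m = 4 := by omega
    by_cases hx1 : x = 1
    · subst hx1
      exact g144 n hn hmn
    · by_cases hn4 : n = 4
      · subst hn4
        rw [swap12, swap23]
        exact g444 x hx (by omega)
      · by_cases hx4 : x = 4
        · subst hx4
          exact g444 n hn hmn
        · rw [swap12]
          exact g177 4 x n (by norm_num) hx hn (by omega) (by omega)

theorem good1 (x m n : ℕ) (hx : x % 3 = 1) (hm : m % 3 = 1) (hn : n % 3 = 1) (hm4 : 4 ≤ m)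
    (hn4 : 4 ≤ n) : GM {x, m, n} := by
  rcases le_total m n with h | h
  · exact good1_le x m n hx hm hn hm4 h
  · rw [swap23]
    exact good1_le x n m hx hn hm hn4 h

theorem good2_le (a b c : ℕ) (ha : a % 3 = 2) (hb : b % 3 = 2) (hc : c % 3 = 2) (hab : a ≤ b)
    (hbc : b ≤ c) : GM {a, b, c} := by
  by_cases h8 : 8 ≤ c
  · by_cases h5 : 5 ≤ b
    · exact g258 a b c ha hb hc h5 h8
    · obtain rfl : b = 2 := by omega
      obtain rfl : a = 2 := by omega
      exact g225 c hc (by omega)
  · by_cases h5 : c = 5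
    · subst h5
      by_cases hb5 : b = 5
      · subst hb5
        by_cases ha5 : a = 5
        · subst ha5
          exact GM.equal 5
        · obtain rfl : a = 2 := by omega
          exact g255
      · obtain rfl : b = 2 := by omega
        obtain rfl : a = 2 := by omega
        exact g225 5 hc (by omega)
    · obtain rfl : c = 2 := by omega
      obtain rfl : b = 2 := by omega
      obtain rfl : a = 2 := by omega
      exact GM.equal 2

theorem good2 (a b c : ℕ) (ha : a % 3 = 2) (hb : b % 3 = 2) (hc : c % 3 = 2) : GM {a, b, c} := by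
  rcases le_total a b with h1 | h1 <;> rcases le_total b c with h2 | h2 <;>
    rcases le_total a c with h3 | h3
  · exact good2_le a b c ha hb hc h1 h2
  · exact good2_le a b c ha hb hc h1 h2
  · rw [swap23]
    exact good2_le a c b ha hc hb h3 h2
  · rw [swap23, swap12]
    exact good2_le c a b hc ha hb h3 h1
  · rw [swap12]
    exact good2_le b a c hb ha hc h1 h3
  · rw [swap12, swap23]
    exact good2_le b c a hb hc ha h2 h3
  · rw [swap12, swap23, swap12]
    exact good2_le c b a hc hb ha h2 h1
  · rw [swap12, swap23, swap12]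
    exact good2_le c b a hc hb ha h2 h1

/-! ### Adding parts -/

/-- Parts with these sizes can be added. -/
def AddG (P : Multiset ℕ) : Prop := ∀ M, DM M → DM (P + M)

theorem AddG.zero : AddG 0 := fun M h => by rwa [zero_add]

theorem AddG.add {P Q : Multiset ℕ} (hP : AddG P) (hQ : AddG Q) : AddG (P + Q) := fun M h => by
  rw [add_assoc]
  exact hP _ (hQ _ h)

theorem GM.addG {P : Multiset ℕ} (h : GM P) : AddG P := fun _ hM => h.add hM

theorem AddG.dm {P : Multiset ℕ} (h : AddG P) : DM P := by
  simpa using h 0 DM.zero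

theorem addG_triples (q : ℕ → Prop) (hq : ∀ a b c, q a → q b → q c → GM {a, b, c}) :
    ∀ (k : ℕ) (S : Multiset ℕ), Multiset.card S = 3 * k → (∀ x ∈ S, q x) → AddG S := by
  intro k
  induction k with
  | zero =>
    intro S hS _
    have : S = 0 := by simpa using hS
    subst this
    exact AddG.zero
  | succ k ih =>
    intro S hS hqS
    obtain ⟨a, S1, rfl, h1⟩ := Multiset.card_eq_succ_iff.1
      (show Multiset.card S = (3 * k + 2) + 1 by omega)
    obtain ⟨b, S2, rfl, h2⟩ := Multiset.card_eq_succ_iff.1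
      (show Multiset.card S1 = (3 * k + 1) + 1 by omega)
    obtain ⟨c, S3, rfl, h3⟩ := Multiset.card_eq_succ_iff.1
      (show Multiset.card S2 = (3 * k) + 1 by omega)
    have e : a ::ₘ b ::ₘ c ::ₘ S3 = ({a, b, c} : Multiset ℕ) + S3 := by
      simp
    rw [e]
    refine (hq a b c (hqS a (by simp)) (hqS b (by simp)) (hqS c (by simp))).addG.add
      (ih S3 h3 fun x hx => hqS x (by simp [hx]))

theorem addG_two (S : Multiset ℕ) (h : Multiset.card S % 3 = 0) (hS : ∀ x ∈ S, x % 3 = 2) :
    AddG S :=
  addG_triples (fun x => x % 3 = 2) (fun a b c ha hb hc => good2 a b c ha hb hc)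
    (Multiset.card S / 3) S (by omega) hS

theorem addG_big (D : Multiset ℕ) (h : Multiset.card D % 3 = 0)
    (hD : ∀ x ∈ D, x % 3 = 1 ∧ 4 ≤ x) : AddG D :=
  addG_triples (fun x => x % 3 = 1 ∧ 4 ≤ x)
    (fun a b c ha hb hc => good1 a b c ha.1 hb.1 hc.1 hb.2 hc.2)
    (Multiset.card D / 3) D (by omega) hD

theorem addG_ones (c : ℕ) (h : c % 3 = 0) : AddG (Multiset.replicate c 1) :=
  addG_triples (fun x => x = 1) (fun a b c ha hb hc => by subst ha hb hc; exact GM.equal 1)
    (c / 3) _ (by rw [Multiset.card_replicate]; omega) (fun x hx => Multiset.eq_of_mem_replicate hx)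

theorem addG_zero (Z : Multiset ℕ) (h : ∀ x ∈ Z, x % 3 = 0) : AddG Z := by
  induction Z using Multiset.induction with
  | empty => exact AddG.zero
  | cons a Z ih =>
    rw [← Multiset.singleton_add]
    refine AddG.add ?_ (ih fun x hx => h x (by simp [hx]))
    have ha := h a (by simp)
    have : a = 3 * (a / 3) := by omega
    rw [this]
    exact (GM.zeroPart _).addG

theorem addG_mixed (c : ℕ) (D : Multiset ℕ) (h : (c + Multiset.card D) % 3 = 0)
    (h1 : Multiset.card D ≠ 1) (hD : ∀ x ∈ D, x % 3 = 1 ∧ 4 ≤ x) :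
    AddG (Multiset.replicate c 1 + D) := by
  rcases (by omega : c % 3 = 0 ∨ c % 3 = 1 ∨ c % 3 = 2) with hc | hc | hc
  · exact (addG_ones c hc).add (addG_big D (by omega) hD)
  · obtain ⟨m, D1, rfl, h2⟩ := Multiset.card_eq_succ_iff.1
      (show Multiset.card D = (Multiset.card D - 1) + 1 by omega)
    rw [Multiset.card_cons] at h h1 h2
    obtain ⟨n, D2, rfl, h3⟩ := Multiset.card_eq_succ_iff.1
      (show Multiset.card D1 = (Multiset.card D1 - 1) + 1 by omega)
    rw [Multiset.card_cons] at h h1 h2
    have hm := hD m (by simp)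
    have hn := hD n (by simp)
    have e : Multiset.replicate c 1 + (m ::ₘ n ::ₘ D2) =
        Multiset.replicate (c - 1) 1 + (({1, m, n} : Multiset ℕ) + D2) := by
      obtain ⟨c', rfl⟩ : ∃ c', c = c' + 1 := ⟨c - 1, by omega⟩
      rw [Nat.add_sub_cancel, Multiset.replicate_succ]
      apply Multiset.ext.2
      intro x
      simp only [Multiset.insert_eq_cons, Multiset.count_add, Multiset.count_cons,
        Multiset.count_singleton]
      ring
    rw [e]
    exact (addG_ones _ (by omega)).add ((good1 1 m n (by norm_num) hm.1 hn.1 hm.2 hn.2).addG.add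
      (addG_big D2 (by omega) fun x hx => hD x (by simp [hx])))
  · obtain ⟨m, D1, rfl, h2⟩ := Multiset.card_eq_succ_iff.1
      (show Multiset.card D = (Multiset.card D - 1) + 1 by omega)
    rw [Multiset.card_cons] at h h1 h2
    obtain ⟨n, D2, rfl, h3⟩ := Multiset.card_eq_succ_iff.1
      (show Multiset.card D1 = (Multiset.card D1 - 1) + 1 by omega)
    rw [Multiset.card_cons] at h h1 h2 h3
    obtain ⟨m', D3, rfl, h4⟩ := Multiset.card_eq_succ_iff.1
      (show Multiset.card D2 = (Multiset.card D2 - 1) + 1 by omega)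
    rw [Multiset.card_cons] at h h1 h2 h3 h4
    obtain ⟨n', D4, rfl, h5⟩ := Multiset.card_eq_succ_iff.1
      (show Multiset.card D3 = (Multiset.card D3 - 1) + 1 by omega)
    rw [Multiset.card_cons] at h h1 h2 h3 h4
    have hm := hD m (by simp)
    have hn := hD n (by simp)
    have hm' := hD m' (by simp)
    have hn' := hD n' (by simp)
    have e : Multiset.replicate c 1 + (m ::ₘ n ::ₘ m' ::ₘ n' ::ₘ D4) =
        Multiset.replicate (c - 2) 1 +
          (({1, m, n} : Multiset ℕ) + (({1, m', n'} : Multiset ℕ) + D4)) := by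
      obtain ⟨c', rfl⟩ : ∃ c', c = c' + 2 := ⟨c - 2, by omega⟩
      rw [Nat.add_sub_cancel, Multiset.replicate_succ, Multiset.replicate_succ]
      apply Multiset.ext.2
      intro x
      simp only [Multiset.insert_eq_cons, Multiset.count_add, Multiset.count_cons,
        Multiset.count_singleton]
      ring
    rw [e]
    exact (addG_ones _ (by omega)).add ((good1 1 m n (by norm_num) hm.1 hn.1 hm.2 hn.2).addG.add
      ((good1 1 m' n' (by norm_num) hm'.1 hn'.1 hm'.2 hn'.2).addG.add
        (addG_big D4 (by omega) fun x hx => hD x (by simp [hx]))))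

/-! ### The exceptional families and the four-part graphs -/

theorem dm4 (a b c d : ℕ) (ha : 1 ≤ a) (hb : 1 ≤ b) (hc : 1 ≤ c) (hd : 1 ≤ d)
    (h : (a * b + a * c + a * d + b * c + b * d + c * d) % 3 = 0) : DM {a, b, c, d} := by
  have h1 : Divisible (K ![a, b, c, d]) 3 := by
    refine Pool.Agent.Results.MP_369736_co.FourPartsThreeFactors.result ![a, b, c, d] ?_ ?_
    · intro i
      fin_cases i
      exacts [ha, hb, hc, hd]
    · rw [card_edges]
      exact Nat.dvd_of_mod_eq_zero h
  exact DM.of_divisible h1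

theorem dm11111n (n : ℕ) (h : n % 3 = 1) : DM {1, 1, 1, 1, 1, n} := by
  have h1 := Core.hf c111111_ok ![0, 0, 0, 0, 0, (n - 1) / 3] (by
    intro i hi
    fin_cases i
    exacts [rfl, rfl, rfl, rfl, rfl, absurd hi (by decide)])
  have e : (univ : Finset (Fin 6)).val.map
      (fun i => c111111.rr i + 3 * (![0, 0, 0, 0, 0, (n - 1) / 3] : Fin 6 → ℕ) i) =
      {1, 1, 1, 1, 1, 1 + 3 * ((n - 1) / 3)} := rfl
  rw [e, show 1 + 3 * ((n - 1) / 3) = n by omega] at h1
  exact h1

theorem dm11nabc (n a b c : ℕ) (h : n % 3 = 1) (h4 : 4 ≤ n) (ha : a % 3 = 2) (hb : b % 3 = 2)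
    (hc : c % 3 = 2) : DM {1, 1, n, a, b, c} := by
  have h1 := Core.hf c114222_ok
    ![0, 0, (n - 4) / 3, (a - 2) / 3, (b - 2) / 3, (c - 2) / 3] (by
    intro i hi
    fin_cases i
    exacts [rfl, rfl, absurd hi (by decide), absurd hi (by decide), absurd hi (by decide),
      absurd hi (by decide)])
  have e : (univ : Finset (Fin 6)).val.map
      (fun i => c114222.rr i + 3 * (![0, 0, (n - 4) / 3, (a - 2) / 3, (b - 2) / 3,
        (c - 2) / 3] : Fin 6 → ℕ) i) =
      {1, 1, 4 + 3 * ((n - 4) / 3), 2 + 3 * ((a - 2) / 3), 2 + 3 * ((b - 2) / 3),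
        2 + 3 * ((c - 2) / 3)} := rfl
  rw [e, show 4 + 3 * ((n - 4) / 3) = n by omega, show 2 + 3 * ((a - 2) / 3) = a by omega,
    show 2 + 3 * ((b - 2) / 3) = b by omega, show 2 + 3 * ((c - 2) / 3) = c by omega] at h1
  exact h1

/-- The parts with sizes `1` modulo `3`: `c` parts of size one and the others. -/
theorem dm_parts (Z S D : Multiset ℕ) (c : ℕ) (hZ : ∀ x ∈ Z, x % 3 = 0 ∧ 1 ≤ x)
    (hS : ∀ x ∈ S, x % 3 = 2) (hD : ∀ x ∈ D, x % 3 = 1 ∧ 4 ≤ x)
    (h4 : 4 ≤ Multiset.card Z + Multiset.card S + (c + Multiset.card D))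
    (hcond : (Multiset.card S % 3 = 0 ∧ (c + Multiset.card D) % 3 = 0) ∨
      (Multiset.card S % 3 = 1 ∧ (c + Multiset.card D) % 3 = 0) ∨
      (Multiset.card S % 3 = 0 ∧ (c + Multiset.card D) % 3 = 1)) :
    DM (Z + (S + (Multiset.replicate c 1 + D))) := by
  have hZ' : AddG Z := addG_zero Z fun x hx => (hZ x hx).1
  rcases hcond with ⟨h1, h2⟩ | ⟨h1, h2⟩ | ⟨h1, h2⟩
  · -- both numbers divisible by three
    by_cases hd : Multiset.card D = 1
    · obtain ⟨n, rfl⟩ := Multiset.card_eq_one.1 hd
      have hn := hD n (by simp)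
      rw [hd] at h2 h4
      have ec : Multiset.replicate c 1 + ({n} : Multiset ℕ) =
          Multiset.replicate (c - 2) 1 + ({1, 1, n} : Multiset ℕ) := by
        obtain ⟨c', rfl⟩ : ∃ c', c = c' + 2 := ⟨c - 2, by omega⟩
        rw [Nat.add_sub_cancel, Multiset.replicate_succ, Multiset.replicate_succ]
        apply Multiset.ext.2
        intro x
        simp only [Multiset.insert_eq_cons, Multiset.count_add, Multiset.count_cons,
          Multiset.count_singleton]
        ring
      rw [ec]
      by_cases hz : Multiset.card Z = 0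
      · obtain rfl : Z = 0 := by simpa using hz
        by_cases hs : Multiset.card S = 0
        · obtain rfl : S = 0 := by simpa using hs
          have hc5 : 5 ≤ c := by simp at h4; omega
          have e2 : Multiset.replicate (c - 2) 1 + ({1, 1, n} : Multiset ℕ) =
              Multiset.replicate (c - 5) 1 + ({1, 1, 1, 1, 1, n} : Multiset ℕ) := by
            obtain ⟨c', rfl⟩ : ∃ c', c = c' + 5 := ⟨c - 5, by omega⟩
            rw [Nat.add_sub_cancel, show c' + 5 - 2 = c' + 1 + 1 + 1 by omega,
              Multiset.replicate_succ, Multiset.replicate_succ, Multiset.replicate_succ]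
            apply Multiset.ext.2
            intro x
            simp only [Multiset.insert_eq_cons, Multiset.count_add, Multiset.count_cons,
              Multiset.count_singleton]
            ring
          rw [zero_add, zero_add, e2]
          exact addG_ones _ (by omega) _ (dm11111n n hn.1)
        · obtain ⟨a, S1, rfl, h3⟩ := Multiset.card_eq_succ_iff.1
            (show Multiset.card S = (Multiset.card S - 1) + 1 by omega)
          rw [Multiset.card_cons] at h1 h3
          obtain ⟨b, S2, rfl, h3⟩ := Multiset.card_eq_succ_iff.1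
            (show Multiset.card S1 = (Multiset.card S1 - 1) + 1 by omega)
          rw [Multiset.card_cons] at h1 h3
          obtain ⟨d, S3, rfl, h3⟩ := Multiset.card_eq_succ_iff.1
            (show Multiset.card S2 = (Multiset.card S2 - 1) + 1 by omega)
          rw [Multiset.card_cons] at h1 h3
          have e3 : (0 : Multiset ℕ) + ((a ::ₘ b ::ₘ d ::ₘ S3) +
              (Multiset.replicate (c - 2) 1 + {1, 1, n})) =
              S3 + (Multiset.replicate (c - 2) 1 + {1, 1, n, a, b, d}) := by
            apply Multiset.ext.2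
            intro x
            simp only [Multiset.insert_eq_cons, Multiset.count_add, Multiset.count_cons,
              Multiset.count_singleton, Multiset.count_zero]
            ring
          rw [e3]
          exact addG_two S3 (by omega) (fun x hx => hS x (by simp [hx])) _
            (addG_ones _ (by omega) _ (dm11nabc n a b d hn.1 hn.2 (hS a (by simp))
              (hS b (by simp)) (hS d (by simp))))
      · obtain ⟨z, Z1, rfl, h3⟩ := Multiset.card_eq_succ_iff.1
          (show Multiset.card Z = (Multiset.card Z - 1) + 1 by omega)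
        have hz1 := hZ z (by simp)
        have e3 : (z ::ₘ Z1) + (S + (Multiset.replicate (c - 2) 1 + {1, 1, n})) =
            Z1 + (S + (Multiset.replicate (c - 2) 1 + {1, 1, n, z})) := by
          apply Multiset.ext.2
          intro x
          simp only [Multiset.insert_eq_cons, Multiset.count_add, Multiset.count_cons,
            Multiset.count_singleton]
          ring
        rw [e3]
        refine addG_zero Z1 (fun x hx => (hZ x (by simp [hx])).1) _ (addG_two S h1 hS _
          (addG_ones _ (by omega) _ (dm4 1 1 n z le_rfl le_rfl (by omega) hz1.2 ?_)))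
        have e4 : (1 * 1 + 1 * n + 1 * z + 1 * n + 1 * z + n * z) % 3 =
            (1 * 1 + 1 * (n % 3) + 1 * (z % 3) + 1 * (n % 3) + 1 * (z % 3) +
              (n % 3) * (z % 3)) % 3 := by
          simp [Nat.add_mod, Nat.mul_mod]
        rw [e4, hn.1, hz1.1]
    · exact hZ' _ ((addG_two S h1 hS) _ (addG_mixed c D h2 hd hD).dm)
  · obtain ⟨b, S1, rfl, h3⟩ := Multiset.card_eq_succ_iff.1
      (show Multiset.card S = (Multiset.card S - 1) + 1 by omega)
    rw [Multiset.card_cons] at h1
    have hb := hS b (by simp)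
    have hS1 : AddG S1 := addG_two S1 (by omega) (fun x hx => hS x (by simp [hx]))
    by_cases hd : Multiset.card D = 1
    · obtain ⟨n, rfl⟩ := Multiset.card_eq_one.1 hd
      have hn := hD n (by simp)
      rw [hd] at h2
      have e3 : (b ::ₘ S1) + (Multiset.replicate c 1 + ({n} : Multiset ℕ)) =
          S1 + (Multiset.replicate (c - 2) 1 + ({1, 1, n, b} : Multiset ℕ)) := by
        obtain ⟨c', rfl⟩ : ∃ c', c = c' + 2 := ⟨c - 2, by omega⟩
        rw [Nat.add_sub_cancel, Multiset.replicate_succ, Multiset.replicate_succ]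
        apply Multiset.ext.2
        intro x
        simp only [Multiset.insert_eq_cons, Multiset.count_add, Multiset.count_cons,
          Multiset.count_singleton]
        ring
      rw [e3]
      refine hZ' _ (hS1 _ (addG_ones _ (by omega) _
        (dm4 1 1 n b le_rfl le_rfl (by omega) (by omega) ?_)))
      have e4 : (1 * 1 + 1 * n + 1 * b + 1 * n + 1 * b + n * b) % 3 =
          (1 * 1 + 1 * (n % 3) + 1 * (b % 3) + 1 * (n % 3) + 1 * (b % 3) +
            (n % 3) * (b % 3)) % 3 := by
        simp [Nat.add_mod, Nat.mul_mod]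
      rw [e4, hn.1, hb]
    · have e3 : (b ::ₘ S1) + (Multiset.replicate c 1 + D) =
          S1 + ((Multiset.replicate c 1 + D) + {b}) := by
        apply Multiset.ext.2
        intro x
        simp only [Multiset.count_add, Multiset.count_cons, Multiset.count_singleton]
        ring
      rw [e3]
      exact hZ' _ (hS1 _ (addG_mixed c D h2 hd hD _ (DM.single b)))
  · refine hZ' _ (addG_two S h1 hS _ ?_)
    by_cases hd : Multiset.card D = 0 ∨ Multiset.card D = 2
    · have e3 : Multiset.replicate c 1 + D = (Multiset.replicate (c - 1) 1 + D) + {1} := by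
        obtain ⟨c', rfl⟩ : ∃ c', c = c' + 1 := ⟨c - 1, by omega⟩
        rw [Nat.add_sub_cancel, Multiset.replicate_succ]
        apply Multiset.ext.2
        intro x
        simp only [Multiset.count_add, Multiset.count_cons, Multiset.count_singleton]
        ring
      rw [e3]
      exact addG_mixed (c - 1) D (by omega) (by omega) hD _ (DM.single 1)
    · obtain ⟨b, D1, rfl, h3⟩ := Multiset.card_eq_succ_iff.1
        (show Multiset.card D = (Multiset.card D - 1) + 1 by omega)
      rw [Multiset.card_cons] at h2 hd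
      have e3 : Multiset.replicate c 1 + (b ::ₘ D1) = (Multiset.replicate c 1 + D1) + {b} := by
        apply Multiset.ext.2
        intro x
        simp only [Multiset.count_add, Multiset.count_cons, Multiset.count_singleton]
        ring
      rw [e3]
      exact addG_mixed c D1 (by omega) (by omega) (fun x hx => hD x (by simp [hx])) _
        (DM.single b)

end Pool.Agent.Y386.IF
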