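import Pool.Agent.Y386.IF.Final

/-!
`K(1, 1, 7)` has 15 edges and no isomorphic factorisation into three factors.
-/

namespace Pool.Agent.Y386.IF

open Finset
open Pool.Agent.Results.MP_369736_co.FourPartsThreeFactors
  (K Divisible IsIsoFactorisation ConditionSufficient)

abbrev W : Type := Σ i : Fin 3, Fin ((![1, 1, 7] : Fin 3 → ℕ) i)

/-- degree of `v` in the factor `k` -/
def dg (c : W → W → Fin 3) (k : Fin 3) (v : W) : ℕ :=
  (univ.filter fun w : W => v.1 ≠ w.1 ∧ c v w = k).card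

theorem dg_map {c : W → W → Fin 3} {σ : Fin 3 → W ≃ W}
    (h : ∀ k u v, (u.1 ≠ v.1 ∧ c u v = 0) ↔
      ((σ k u).1 ≠ (σ k v).1 ∧ c (σ k u) (σ k v) = k)) (k : Fin 3) (v : W) :
    dg c k (σ k v) = dg c 0 v := by
  unfold dg
  symm
  refine Finset.card_bij (fun w _ => σ k w) ?_ ?_ ?_
  · intro w hw
    simp only [mem_filter, mem_univ, true_and] at hw ⊢
    exact (h k v w).1 hw
  · intro a _ b _ hab
    exact (σ k).injective hab
  · intro b hb
    simp only [mem_filter, mem_univ, true_and] at hb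
    refine ⟨(σ k).symm b, ?_, by simp⟩
    simp only [mem_filter, mem_univ, true_and]
    exact (h k v _).2 (by simpa using hb)

theorem sum_dg {c : W → W → Fin 3} {σ : Fin 3 → W ≃ W}
    (h : ∀ k u v, (u.1 ≠ v.1 ∧ c u v = 0) ↔
      ((σ k u).1 ≠ (σ k v).1 ∧ c (σ k u) (σ k v) = k)) (g : ℕ → ℕ) (k : Fin 3) :
    ∑ v, g (dg c k v) = ∑ v, g (dg c 0 v) := by
  rw [← Equiv.sum_comp (σ k)]
  exact Finset.sum_congr rfl fun v _ => by rw [dg_map h]

def nn (t A d : ℕ) : ℕ := (if t ≤ A then 1 else 0) + (if t ≤ 5 + d - A then 1 else 0)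

def chk (A0 A1 A2 d0 d1 d2 : ℕ) : Bool :=
  !(decide (d0 + d1 + d2 = 1) && decide (A0 + A1 + A2 = 8) &&
    decide (nn 3 A1 d1 = nn 3 A0 d0) && decide (nn 3 A2 d2 = nn 3 A0 d0) &&
    decide (nn 4 A1 d1 = nn 4 A0 d0) && decide (nn 4 A2 d2 = nn 4 A0 d0) &&
    decide (nn 5 A1 d1 = nn 5 A0 d0) && decide (nn 5 A2 d2 = nn 5 A0 d0))

theorem arith : ∀ A0 < 6, ∀ A1 < 6, ∀ A2 < 6, ∀ d0 < 2, ∀ d1 < 2, ∀ d2 < 2,
    chk A0 A1 A2 d0 d1 d2 = true := by
  decide +kernel

theorem not_three : ¬ ConditionSufficient 3 3 := by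
  intro hs
  have hdiv : Divisible (K (![1, 1, 7] : Fin 3 → ℕ)) 3 := by
    refine hs _ ?_ ?_
    · intro i
      fin_cases i <;> simp
    · have := card_edges 3 ![1, 1, 7]
      simp [Fin.sum_univ_three] at this
      omega
  obtain ⟨c, σ, hc, h⟩ := HF.of_divisible hdiv
  let a : W := ⟨0, (0 : Fin 1)⟩
  let b : W := ⟨1, (0 : Fin 1)⟩
  let z : Fin 7 → W := fun i => ⟨2, i⟩
  have sumW : ∀ f : W → ℕ, ∑ v, f v = f a + f b + ∑ i, f (z i) := by
    intro f
    rw [Fintype.sum_sigma, Fin.sum_univ_three]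
    congr 1
  -- indicator numbers
  let α : Fin 3 → Fin 7 → ℕ := fun k i => if c a (z i) = k then 1 else 0
  let β : Fin 3 → Fin 7 → ℕ := fun k i => if c b (z i) = k then 1 else 0
  let δ : Fin 3 → ℕ := fun k => if c a b = k then 1 else 0
  have dW : ∀ k v, dg c k v = (if v.1 ≠ a.1 ∧ c v a = k then 1 else 0) +
      (if v.1 ≠ b.1 ∧ c v b = k then 1 else 0) +
      ∑ i, (if v.1 ≠ (z i).1 ∧ c v (z i) = k then 1 else 0) := by
    intro k v
    rw [dg, Finset.card_filter]
    exact sumW _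
  have da : ∀ k, dg c k a = δ k + ∑ i, α k i := by
    intro k
    rw [dW]
    simp [a, b, z, δ, α]
  have db : ∀ k, dg c k b = δ k + ∑ i, β k i := by
    intro k
    rw [dW]
    simp only [δ, hc a b]
    simp [a, b, z, β]
  have dz : ∀ k i, dg c k (z i) = α k i + β k i := by
    intro k i
    rw [dW]
    simp only [α, β, hc a (z i), hc b (z i)]
    simp [a, b, z]
  have hα : ∀ k i, α k i ≤ 1 := fun k i => by
    simp only [α]; split_ifs <;> omega
  have hβ : ∀ k i, β k i ≤ 1 := fun k i => by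
    simp only [β]; split_ifs <;> omega
  have sα : ∀ i, α 0 i + α 1 i + α 2 i = 1 := by
    intro i
    simp only [α]
    generalize c a (z i) = x
    fin_cases x <;> simp
  have sβ : ∀ i, β 0 i + β 1 i + β 2 i = 1 := by
    intro i
    simp only [β]
    generalize c b (z i) = x
    fin_cases x <;> simp
  have sδ : δ 0 + δ 1 + δ 2 = 1 := by
    simp only [δ]
    generalize c a b = x
    fin_cases x <;> simp
  have tα : (∑ i, α 0 i) + (∑ i, α 1 i) + (∑ i, α 2 i) = 7 := by
    rw [← Finset.sum_add_distrib, ← Finset.sum_add_distrib, Finset.sum_congr rfl fun i _ => sα i]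
    simp
  have tβ : (∑ i, β 0 i) + (∑ i, β 1 i) + (∑ i, β 2 i) = 7 := by
    rw [← Finset.sum_add_distrib, ← Finset.sum_add_distrib, Finset.sum_congr rfl fun i _ => sβ i]
    simp
  -- numbers of edges
  have E : ∀ k, dg c k a + dg c k b + ((∑ i, α k i) + ∑ i, β k i) =
      dg c 0 a + dg c 0 b + ((∑ i, α 0 i) + ∑ i, β 0 i) := by
    intro k
    have := sum_dg h id k
    rw [sumW, sumW] at this
    simp only [id, dz, Finset.sum_add_distrib] at this
    exact this
  -- numbers of vertices of degree at least `t`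
  have T : ∀ t, 3 ≤ t → ∀ k, (if t ≤ dg c k a then 1 else 0) + (if t ≤ dg c k b then 1 else 0) =
      (if t ≤ dg c 0 a then 1 else 0) + (if t ≤ dg c 0 b then 1 else 0) := by
    intro t ht k
    have := sum_dg h (fun x => if t ≤ x then 1 else 0) k
    rw [sumW, sumW] at this
    have hz : ∀ k, (∑ i, if t ≤ dg c k (z i) then 1 else 0) = 0 := by
      intro k
      apply Finset.sum_eq_zero
      intro i _
      rw [dz, if_neg]
      have := hα k i
      have := hβ k i
      omega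
    rw [hz, hz] at this
    exact this
  have T3 := T 3 (by norm_num)
  have T4 := T 4 (by norm_num)
  have T5 := T 5 (by norm_num)
  have T6 := T 6 (by norm_num)
  have E1 := E 1
  have E2 := E 2
  have a0 := da 0
  have a1 := da 1
  have a2 := da 2
  have b0 := db 0
  have b1 := db 1
  have b2 := db 2
  have T31 := T3 1
  have T32 := T3 2
  have T41 := T4 1
  have T42 := T4 2
  have T51 := T5 1
  have T52 := T5 2
  have T61 := T6 1
  have T62 := T6 2
  clear T3 T4 T5 T6 T E dz dW da db hα hβ sα sβ sumW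
  generalize dg c 0 a = A0 at *
  generalize dg c 1 a = A1 at *
  generalize dg c 2 a = A2 at *
  generalize dg c 0 b = B0 at *
  generalize dg c 1 b = B1 at *
  generalize dg c 2 b = B2 at *
  generalize (∑ i, α 0 i) = p0 at *
  generalize (∑ i, α 1 i) = p1 at *
  generalize (∑ i, α 2 i) = p2 at *
  generalize (∑ i, β 0 i) = q0 at *
  generalize (∑ i, β 1 i) = q1 at *
  generalize (∑ i, β 2 i) = q2 at *
  generalize δ 0 = d0 at *
  generalize δ 1 = d1 at *
  generalize δ 2 = d2 at *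
  have f0 : A0 + B0 = 5 + d0 := by omega
  have f1 : A1 + B1 = 5 + d1 := by omega
  have f2 : A2 + B2 = 5 + d2 := by omega
  have g1 : A0 + A1 + A2 = 8 := by omega
  have g2 : B0 + B1 + B2 = 8 := by omega
  have l0 : d0 ≤ A0 ∧ d0 ≤ B0 := by omega
  have l1 : d1 ≤ A1 ∧ d1 ≤ B1 := by omega
  have l2 : d2 ≤ A2 ∧ d2 ≤ B2 := by omega
  have m0 : A0 ≤ 5 := by omega
  have m1 : A1 ≤ 5 := by omega
  have m2 : A2 ≤ 5 := by omega
  obtain rfl : B0 = 5 + d0 - A0 := by omega
  obtain rfl : B1 = 5 + d1 - A1 := by omega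
  obtain rfl : B2 = 5 + d2 - A2 := by omega
  have hk := arith A0 (by omega) A1 (by omega) A2 (by omega) d0 (by omega) d1 (by omega) d2
    (by omega)
  have e31 : nn 3 A1 d1 = nn 3 A0 d0 := T31
  have e32 : nn 3 A2 d2 = nn 3 A0 d0 := T32
  have e41 : nn 4 A1 d1 = nn 4 A0 d0 := T41
  have e42 : nn 4 A2 d2 = nn 4 A0 d0 := T42
  have e51 : nn 5 A1 d1 = nn 5 A0 d0 := T51
  have e52 : nn 5 A2 d2 = nn 5 A0 d0 := T52
  rw [chk, decide_eq_true sδ, decide_eq_true g1, decide_eq_true e31, decide_eq_true e32,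
    decide_eq_true e41, decide_eq_true e42, decide_eq_true e51, decide_eq_true e52] at hk
  exact absurd hk (by decide)

end Pool.Agent.Y386.IF
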